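import Pool.Agent.Y862.SQ.Stm3
import Pool.Agent.Y448.SQ.SmallZ

set_option autoImplicit false

/-!
# The small primes for families of windows, `n` a unit (job SQ3-SMALL), adapted from
`Pool/Agent/Y448/SQ/SmallZ.lean`
-/

namespace Pool.Agent.Y406.SQ

open Finset Pool.Agent.Y862.SQ Pool.Agent.Y681.SQ Pool.Agent.Y448.SQ

/-- the integers prime to the small primes -/
def Uw (w : ℕ) : Finset ℕ := (range (Mw w)).filter (fun n : ℕ => ∀ p ∈ pr w, ¬ p ∣ n)

lemma dvd00 {p : ℕ} (hp : p.Prime) (n : ℕ) :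
    (p : ℤ) ∣ ((n : ℤ) + ((0 : ℕ) : ℤ)) ^ 2 + 0 ↔ p ∣ n := by
  rw [Nat.cast_zero, add_zero, add_zero]
  constructor
  · intro h
    have := (Nat.prime_iff_prime_int.1 hp).dvd_of_dvd_pow h
    exact_mod_cast this
  · intro h
    have : (p : ℤ) ∣ (n : ℤ) := by exact_mod_cast h
    exact dvd_pow this two_ne_zero

/-- the number of the integers prime to the small primes -/
lemma card_Uw (w : ℕ) : ((Uw w).card : ℝ) = Mw w * V1 w := by
  have h := exactP {((0 : ℕ), (0 : ℤ))} w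
  have h1 : (range (Mw w)).filter (fun n : ℕ => ∀ p ∈ pr w,
      ¬ ∃ g ∈ ({((0 : ℕ), (0 : ℤ))} : Finset (ℕ × ℤ)), (p : ℤ) ∣ ((n : ℤ) + g.1) ^ 2 + g.2) =
      Uw w := by
    unfold Uw
    apply filter_congr
    intro n _
    apply forall_congr'
    intro p
    apply forall_congr'
    intro hp
    apply not_congr
    constructor
    · rintro ⟨g, hg, hd⟩
      rw [mem_singleton] at hg
      subst hg
      exact (dvd00 (mem_pr.1 hp).2 n).1 hd
    · intro hd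
      exact ⟨(0, 0), mem_singleton_self _, (dvd00 (mem_pr.1 hp).2 n).2 hd⟩
  rw [h1] at h
  rw [h]
  congr 1
  unfold VP V1
  apply Finset.prod_congr rfl
  intro p hp
  have hpp := (mem_pr.1 hp).2
  have h2 : rP {((0 : ℕ), (0 : ℤ))} p = 1 := by
    unfold rP
    rw [Finset.card_eq_one]
    refine ⟨0, ?_⟩
    ext r
    rw [mem_filter, mem_range, mem_singleton]
    constructor
    · rintro ⟨hr, g, hg, hd⟩
      rw [mem_singleton] at hg
      subst hg
      have h4 := (dvd00 hpp r).1 hd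
      exact Nat.eq_zero_of_dvd_of_lt h4 hr
    · rintro rfl
      exact ⟨hpp.pos, (0, 0), mem_singleton_self _, (dvd00 hpp 0).2 (dvd_zero p)⟩
  rw [h2, Nat.cast_one]

/-- the average over the families, as an average over the units of a period -/
lemma sum_famQ {k : ℕ} (w : ℕ) (a : Fin k → ℕ) (c : Fin k → ℤ) (L r : Fin k → ℕ)
    (I : (Fin k → Finset (ℕ × ℤ)) → Finset (ℕ × ℤ))
    (hI : ∀ H g, g ∈ I H ↔ g = (0, 0) ∨ g ∈ un H) :
    (Mw w : ℝ) * ∑ H ∈ fam a c L r, VP (I H) w =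
      ∑ n ∈ Uw w, ∏ j, ((Nj w (a j) (c j) (L j) n).choose (r j) : ℝ) := by
  classical
  rw [Finset.mul_sum]
  have h1 : ∀ H ∈ fam a c L r, (Mw w : ℝ) * VP (I H) w =
      ∑ n ∈ Uw w, ∏ j, (if (∀ g ∈ H j, ∀ p ∈ pr w,
        ¬ (p : ℤ) ∣ ((n : ℤ) + g.1) ^ 2 + g.2) then (1 : ℝ) else 0) := by
    intro H _
    have h2 : ((range (Mw w)).filter (fun n : ℕ => ∀ p ∈ pr w,
        ¬ ∃ g ∈ I H, (p : ℤ) ∣ ((n : ℤ) + g.1) ^ 2 + g.2)).card =
        ((Uw w).filter (fun n : ℕ => ∀ j ∈ (univ : Finset (Fin k)), ∀ g ∈ H j, ∀ p ∈ pr w,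
          ¬ (p : ℤ) ∣ ((n : ℤ) + g.1) ^ 2 + g.2)).card := by
      apply congrArg Finset.card
      ext n
      rw [mem_filter, mem_filter, Uw, mem_filter]
      constructor
      · rintro ⟨h3, h4⟩
        refine ⟨⟨h3, ?_⟩, ?_⟩
        · intro p hp hd
          exact h4 p hp ⟨(0, 0), (hI H _).2 (Or.inl rfl), (dvd00 (mem_pr.1 hp).2 n).2 hd⟩
        · intro j _ g hg p hp hd
          exact h4 p hp ⟨g, (hI H _).2 (Or.inr (mem_biUnion.2 ⟨j, mem_univ j, hg⟩)), hd⟩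
      · rintro ⟨⟨h3, h4⟩, h5⟩
        refine ⟨h3, ?_⟩
        rintro p hp ⟨g, hg, hd⟩
        rcases (hI H g).1 hg with h6 | h6
        · subst h6
          exact h4 p hp ((dvd00 (mem_pr.1 hp).2 n).1 hd)
        · unfold un at h6
          obtain ⟨j, hj, hj2⟩ := mem_biUnion.1 h6
          exact h5 j hj g hj2 p hp hd
    rw [← exactP (I H) w, h2, Finset.card_filter]
    push_cast
    refine Finset.sum_congr rfl fun n _ => ?_
    rw [Finset.prod_ite_zero, Finset.prod_const_one]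
    by_cases h : ∀ j ∈ (univ : Finset (Fin k)), ∀ g ∈ H j, ∀ p ∈ pr w,
        ¬ (p : ℤ) ∣ ((n : ℤ) + g.1) ^ 2 + g.2
    · rw [if_pos h, if_pos h]
    · rw [if_neg h, if_neg h]
  rw [Finset.sum_congr rfl h1, Finset.sum_comm]
  apply Finset.sum_congr rfl
  intro n _
  unfold fam
  rw [← Finset.prod_univ_sum (fun j => powersetCard (r j) (Wn (a j) (c j) (L j)))
    (fun _ B => if (∀ g ∈ B, ∀ p ∈ pr w, ¬ (p : ℤ) ∣ ((n : ℤ) + g.1) ^ 2 + g.2) then (1 : ℝ)
      else 0)]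
  apply Finset.prod_congr rfl
  intro j _
  rw [Finset.sum_ite, Finset.sum_const_zero, add_zero, Finset.sum_const, nsmul_eq_mul, mul_one,
    ← card_Wn, ← Finset.card_powersetCard]
  congr 2
  ext B
  rw [mem_filter, mem_powersetCard, mem_powersetCard]
  constructor
  · rintro ⟨⟨a1, a2⟩, a3⟩
    exact ⟨fun g hg => mem_filter.2 ⟨a1 hg, a3 g hg⟩, a2⟩
  · rintro ⟨a1, a2⟩
    exact ⟨⟨fun g hg => (mem_filter.1 (a1 hg)).1, a2⟩, fun g hg => (mem_filter.1 (a1 hg)).2⟩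

/-- **The small primes for families, `n` a unit.** -/
theorem t_SMALLQ : S_SMALLQ := by
  intro k R w η hη
  obtain ⟨C, hC⟩ : ∃ C : ℝ, C = k * R * 3 ^ (k * R) := ⟨_, rfl⟩
  have hC0 : 0 ≤ C := by rw [hC]; positivity
  have hMw : (0 : ℝ) < Mw w := by exact_mod_cast Mw_pos w
  obtain ⟨m1, hm1⟩ : ∃ m : ℕ, 2 * C * (Mw w + 1 + R) / η ≤ m := exists_nat_ge _
  obtain ⟨m2, hm2⟩ : ∃ m : ℕ, (2 * C / η) ^ 2 ≤ m := exists_nat_ge _
  refine ⟨max (max m1 m2) (max R 1), ?_⟩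
  intro M hM a c L r hW hr
  have hM1 : 1 ≤ M := by omega
  have hMR : R ≤ M := by omega
  have hMm1 : (m1 : ℝ) ≤ M := by exact_mod_cast (show m1 ≤ M by omega)
  have hMm2 : (m2 : ℝ) ≤ M := by exact_mod_cast (show m2 ≤ M by omega)
  have hM0 : (0 : ℝ) < M := by exact_mod_cast hM1
  have h1 : 2 * C * (Mw w + 1 + R) ≤ η * M := by
    have := hm1.trans hMm1
    rw [div_le_iff₀ hη] at this
    linarith
  have h2 : 2 * C * √(M : ℝ) ≤ η * M := by
    have h3 : 2 * C / η ≤ √(M : ℝ) := Real.le_sqrt_of_sq_le (hm2.trans hMm2)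
    rw [div_le_iff₀ hη] at h3
    have h4 : √(M : ℝ) * √(M : ℝ) = M := Real.mul_self_sqrt hM0.le
    calc 2 * C * √(M : ℝ) ≤ √(M : ℝ) * η * √(M : ℝ) :=
          mul_le_mul_of_nonneg_right h3 (Real.sqrt_nonneg _)
      _ = η * (√(M : ℝ) * √(M : ℝ)) := by ring
      _ = η * M := by rw [h4]
  have h3 : C * (Mw w + √(M : ℝ) + 1 + R) / M ≤ η := by
    rw [div_le_iff₀ hM0]
    linarith
  have hterm : ∀ n, |∏ j, ((Nj w (a j) (c j) (L j) n).choose (r j) : ℝ) -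
      ∏ j, ((L j * V1 w) ^ r j / (r j).factorial)| ≤ η * (M : ℝ) ^ (∑ j, r j) := by
    intro n
    refine (one_term w M R n hM1 hMR a c L r hW hr).trans ?_
    rw [← hC]
    exact mul_le_mul_of_nonneg_right h3 (by positivity)
  have hsum := sum_famQ w a c L r (fun H => insert (0, 0) (un H)) (fun H g => mem_insert)
  obtain ⟨T, hT⟩ : ∃ T : ℝ, T = ∏ j, ((L j * V1 w) ^ r j / (r j).factorial : ℝ) := ⟨_, rfl⟩
  rw [← hT] at hterm ⊢
  have h4 : (Mw w : ℝ) * (∑ H ∈ fam a c L r, VP (insert (0, 0) (un H)) w - V1 w * T) =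
      ∑ n ∈ Uw w, (∏ j, ((Nj w (a j) (c j) (L j) n).choose (r j) : ℝ) - T) := by
    rw [mul_sub, hsum, Finset.sum_sub_distrib, Finset.sum_const, nsmul_eq_mul, card_Uw, mul_assoc]
  have h6 : ((Uw w).card : ℝ) ≤ Mw w := by
    have : (Uw w).card ≤ Mw w := by
      refine (card_filter_le _ _).trans ?_
      rw [card_range]
    exact_mod_cast this
  have h5 : (Mw w : ℝ) * |∑ H ∈ fam a c L r, VP (insert (0, 0) (un H)) w - V1 w * T| ≤
      Mw w * (η * (M : ℝ) ^ (∑ j, r j)) := by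
    calc (Mw w : ℝ) * |∑ H ∈ fam a c L r, VP (insert (0, 0) (un H)) w - V1 w * T| =
          |(Mw w : ℝ) * (∑ H ∈ fam a c L r, VP (insert (0, 0) (un H)) w - V1 w * T)| := by
            rw [abs_mul, abs_of_pos hMw]
      _ = |∑ n ∈ Uw w, (∏ j, ((Nj w (a j) (c j) (L j) n).choose (r j) : ℝ) - T)| := by
            rw [h4]
      _ ≤ ∑ n ∈ Uw w, |∏ j, ((Nj w (a j) (c j) (L j) n).choose (r j) : ℝ) - T| :=
            Finset.abs_sum_le_sum_abs _ _
      _ ≤ ∑ _n ∈ Uw w, (η * (M : ℝ) ^ (∑ j, r j)) :=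
            Finset.sum_le_sum fun n _ => hterm n
      _ = (Uw w).card * (η * (M : ℝ) ^ (∑ j, r j)) := by
            rw [Finset.sum_const, nsmul_eq_mul]
      _ ≤ Mw w * (η * (M : ℝ) ^ (∑ j, r j)) := by
            apply mul_le_mul_of_nonneg_right h6
            positivity
  exact le_of_mul_le_mul_left h5 hMw

end Pool.Agent.Y406.SQ
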